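import Pool.Agent.H212.SG.Final

/-!
# Star-like radial slit maps: property (N) forces the two classical families

Q1 of MP_e32d41_an asks for the star-like `F` such that `(F * f)(z) ≠ 0` for all `f ∈ S`, `0 < |z| < 1` (Hadamard product).
We settle it in the class of radial slit maps `F(z) = z ∏_j (1 - x_j z)^{-α_j}`, `|x_j| = 1` distinct, `α_j > 0`, `∑ α_j = 2` (the star-like
functions whose Herglotz measure has finite support; they are dense in the class of star-like functions): if `F` has property (N) then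
`F(z) = z/(1-xz)^2` or `F(z) = z/((1-xz)(1-yz))` (the two known examples).

Proof. Let `α = α_{j0} < 1`, `x = x_{j0}`, `f(ζ) = ((1-conj x ζ)^{-c} - 1)/(c conj x)`, `c = 1-α+ib`, `b > 0` small; `f ∈ S`. With `z = 1/(1+η)`,
`(F*f)(z) = ca z^{1-α} Λ_b(η)`, `Λ_b(η) = ∫_0^1 (1-u)^{1-α+ib} u^{α-1-ib} (u+η)^{-α} g((1-u)/(1+η)) du`, `g(w) = ∏_{j≠j0}(1 - x_j conj x w)^{-α_j}`, and as `t → 0+`
`Λ_b(tξ) = g(1)(-1/(ib) + t^{-ib}(1/(ib)+N(b,ξ))) + M(b) + o(1)`, `N(0,ξ) = N(0,1) - log ξ`. The number `Im (M(0)/g(1))` is minus the mean of the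
argument of a random variable with values in a cone of the right half plane (Laplace transform of Gamma variables), so it lies in `(-π/2, π/2)`, and
the minimum modulus principle gives a zero of `Λ_b` in the right half plane.
-/

set_option autoImplicit false

namespace Pool.Agent.Results.MP_e32d41_an.RadialSlits

/-- The open unit disc. -/
def disc : Set ℂ := {w | ‖w‖ < 1}

/-- The class `S`: analytic and injective on the disc, `f(0) = 0`, `f'(0) = 1`. -/
def ClassS (f : ℂ → ℂ) : Prop :=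
  DifferentiableOn ℂ f disc ∧ Set.InjOn f disc ∧ f 0 = 0 ∧ deriv f 0 = 1

/-- The `n`-th Taylor coefficient at `0`. -/
noncomputable def coeff (f : ℂ → ℂ) (n : ℕ) : ℂ := iteratedDeriv n f 0 / (n.factorial : ℂ)

/-- The Hadamard product `(F * f)(z) = ∑ a_n b_n z^n`. -/
noncomputable def hadamard (F f : ℂ → ℂ) (z : ℂ) : ℂ := ∑' n, coeff F n * coeff f n * z ^ n

/-- Property (N). -/
def PropertyN (F : ℂ → ℂ) : Prop := ∀ f : ℂ → ℂ, ClassS f → ∀ z ∈ disc, z ≠ 0 → hadamard F f z ≠ 0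

/-- Normalised star-like functions (analytic form). -/
def StarLike (F : ℂ → ℂ) : Prop :=
  DifferentiableOn ℂ F disc ∧ F 0 = 0 ∧ deriv F 0 = 1 ∧
    ∀ z ∈ disc, z ≠ 0 → F z ≠ 0 ∧ 0 < (z * deriv F z / F z).re

/-- The radial slit map `z ∏ (1 - x_j z)^{-α_j}` (principal powers; the bases have positive real part). -/
noncomputable def slit (n : ℕ) (α : Fin n → ℝ) (x : Fin n → ℂ) (z : ℂ) : ℂ := z * ∏ j, (1 - x j * z) ^ (-(α j : ℂ))

lemma disc_eq : disc = Metric.ball (0 : ℂ) 1 := by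
  ext w; simp [disc]

/-- Let `|x_j| = 1` be distinct, `α_j > 0`, `∑ α_j = 2`. Then `F = z ∏ (1 - x_j z)^{-α_j}` is star-like; if some `α_j < 1`, then `F * f` (a convergent series) vanishes
somewhere in the punctured disc for some `f ∈ S`; so property (N) forces `n = 1` (`F = z/(1-xz)^2`) or `n = 2`, `α = (1,1)` (`F = z/((1-xz)(1-yz))`). -/
theorem result (n : ℕ) (α : Fin n → ℝ) (x : Fin n → ℂ) (hα : ∀ j, 0 < α j) (hsum : ∑ j, α j = 2) (hx : ∀ j, ‖x j‖ = 1)
    (hinj : Function.Injective x) :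
    StarLike (slit n α x) ∧
    ((∃ j, α j < 1) → ∃ f : ℂ → ℂ, ClassS f ∧ ∃ z ∈ disc, z ≠ 0 ∧
        Summable (fun k => coeff (slit n α x) k * coeff f k * z ^ k) ∧ hadamard (slit n α x) f z = 0) ∧
    (PropertyN (slit n α x) → n = 1 ∨ (n = 2 ∧ ∀ j, α j = 1)) := by
  have key : (∃ j, α j < 1) → ∃ f : ℂ → ℂ, ClassS f ∧ ∃ z ∈ disc, z ≠ 0 ∧
        Summable (fun k => coeff (slit n α x) k * coeff f k * z ^ k) ∧ hadamard (slit n α x) f z = 0 := by
    rintro ⟨j0, hj0⟩
    obtain ⟨f, hf, z, hz0, hz1, hs, hh⟩ := Pool.Agent.H212.SG.fin2 n α x j0 hα hsum hx hinj hj0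
    refine ⟨f, ?_, z, hz1, hz0, hs, hh⟩
    simpa [ClassS, Pool.Agent.H212.SN.ClassS, disc_eq] using hf
  refine ⟨?_, key, ?_⟩
  · obtain ⟨hd, hF0, hF1, hF⟩ := Pool.Agent.H212.SG.t_STAR2 n α x hα hsum hx
    refine ⟨by rw [disc_eq]; exact hd, hF0, hF1, fun z hz hz0 => hF z hz0 hz⟩
  · intro hN
    have h1 : ∀ j, 1 ≤ α j := by
      intro j
      by_contra hlt
      push Not at hlt
      obtain ⟨f, hf, z, hz, hz0, _, hh⟩ := key ⟨j, hlt⟩
      exact hN f hf z hz hz0 hh
    have h2 : (n : ℝ) ≤ 2 := by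
      rw [← hsum]
      calc (n : ℝ) = ∑ _j : Fin n, (1 : ℝ) := by simp
        _ ≤ ∑ j, α j := Finset.sum_le_sum fun j _ => h1 j
    have h3 : n ≤ 2 := by exact_mod_cast h2
    interval_cases n
    · simp at hsum
    · left; rfl
    · right
      refine ⟨rfl, ?_⟩
      rw [Fin.sum_univ_two] at hsum
      have ha := h1 0
      have hb := h1 1
      intro j
      fin_cases j
      · show α 0 = 1
        linarith
      · show α 1 = 1
        linarith

end Pool.Agent.Results.MP_e32d41_an.RadialSlits
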